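import Pool.Agent.H.MP_7e30a6_pr.C

set_option autoImplicit false
open MeasureTheory

namespace Pool.Agent.Results.MP_7e30a6_pr.Yes

theorem result :
    ∃ (V : Type) (_ : Countable V) (_ : Infinite V) (G : SimpleGraph V),
      G.Connected ∧ (∃ D : ℕ, ∀ v : V, (G.neighborSet v).encard ≤ D) ∧
      (∀ H : G.Subgraph, H.verts.Nonempty → ∀ ε : ℝ, 0 < ε →
        ∃ K : Finset V, K.Nonempty ∧ (↑K : Set V) ⊆ H.verts ∧
          {e : V × V | e.1 ∈ K ∧ e.2 ∉ K ∧ H.Adj e.1 e.2}.Finite ∧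
          (({e : V × V | e.1 ∈ K ∧ e.2 ∉ K ∧ H.Adj e.1 e.2}.ncard : ℕ) : ℝ) ≤ ε * K.card) ∧
      ∃ p₁ p₂ : ℝ, 0 < p₁ ∧ p₁ < p₂ ∧ p₂ < 1 ∧ ∀ p : ℝ, p₁ ≤ p → p ≤ p₂ →
        ∀ (Ω : Type) [MeasurableSpace Ω] (P : Measure Ω) [IsProbabilityMeasure P]
          (ξ : Ω → Set (Sym2 (V × ℤ))),
          (∀ e : Sym2 (V × ℤ), MeasurableSet {w : Ω | e ∈ ξ w}) →
          ProbabilityTheory.iIndepSet (fun e : Sym2 (V × ℤ) => {w : Ω | e ∈ ξ w}) P →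
          (∀ e : Sym2 (V × ℤ), P {w : Ω | e ∈ ξ w} = ENNReal.ofReal p) →
          ∀ᵐ w ∂P, Set.Infinite {C : (SimpleGraph.boxProd G (SimpleGraph.hasse ℤ) ⊓
            SimpleGraph.fromEdgeSet (ξ w)).ConnectedComponent | C.supp.Infinite} := by
  refine ⟨H.MP_7e30a6_pr.VV, inferInstance, H.MP_7e30a6_pr.VV_inf, H.MP_7e30a6_pr.GG,
    H.MP_7e30a6_pr.GG_conn, ⟨65537, H.MP_7e30a6_pr.GG_deg⟩, fun S hS ε hε => ?_, 1 / 1000, 1 / 600,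
    by norm_num, by norm_num, by norm_num, fun p h1 h2 Ω _ P _ ξ a b c =>
      H.MP_7e30a6_pr.many P ξ p h1 h2 a b c⟩
  obtain ⟨K, h1, h2, h3⟩ := H.MP_7e30a6_pr.amen S hS ε hε
  refine ⟨K, h1, h2, ?_, h3⟩
  refine (K.finite_toSet.biUnion fun u _ => (Set.finite_of_encard_le_coe
    (H.MP_7e30a6_pr.GG_deg u)).image fun v => (u, v)).subset ?_
  rintro ⟨u, v⟩ ⟨h4, _, h6⟩
  exact Set.mem_biUnion h4 ⟨v, S.adj_sub h6, rfl⟩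

end Pool.Agent.Results.MP_7e30a6_pr.Yes
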